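import Mathlib

namespace Pool.Agent.Results.MP_489091_co.BoundFails

open Module

/-- A family of subspaces of `F^n` is a reverse oddtown family if its members have even
dimension and any two distinct members intersect in a subspace of odd dimension. -/
def IsReverseOddtown (F : Type) [Field F] (n : ℕ) (𝓕 : Set (Submodule F (Fin n → F))) : Prop :=
  (∀ A ∈ 𝓕, Even (finrank F A)) ∧
    ∀ A ∈ 𝓕, ∀ B ∈ 𝓕, A ≠ B → Odd (finrank F (A ⊓ B : Submodule F (Fin n → F)))

/-- `[m]_q = 1 + q + ... + q^(m-1)`. -/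
def gauss (q m : ℕ) : ℕ := ∑ i ∈ Finset.range m, q ^ i

/-! ### Powers in the unit group of `E` -/

section Units
variable (E : Type) [Field E] [Finite E]

/-- The group of `(q-1)`-th powers (the elements of norm one). -/
noncomputable def H (q : ℕ) : Subgroup Eˣ := (powMonoidHom (q - 1) : Eˣ →* Eˣ).range

variable {E}

lemma card_units {q u : ℕ} (hE : Nat.card E = q ^ u) : Nat.card Eˣ = q ^ u - 1 := by
  rw [Nat.card_units, hE]

lemma card_H {q u : ℕ} (hq : 2 ≤ q) (hE : Nat.card E = q ^ u) :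
    Nat.card (H E q) = gauss q u := by
  rw [H, IsCyclic.card_powMonoidHom_range, card_units hE, gauss, Nat.geomSum_eq hq]
  have : q - 1 ∣ q ^ u - 1 := by
    simpa using Nat.sub_dvd_pow_sub_pow q 1 u
  rw [Nat.gcd_eq_right this]

lemma range_pow {q u j : ℕ} (hE : Nat.card E = q ^ u) (hu : u.Prime)
    (hj : 0 < j) (hju : j < u) :
    (powMonoidHom (q ^ j - 1) : Eˣ →* Eˣ).range = H E q := by
  have hcop : Nat.gcd u j = 1 := by
    rw [← Nat.coprime_iff_gcd_eq_one]
    exact (Nat.Prime.coprime_iff_not_dvd hu).2 (Nat.not_dvd_of_pos_of_lt hj hju)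
  have hd : q - 1 ∣ q ^ j - 1 := by
    simpa using Nat.sub_dvd_pow_sub_pow q 1 j
  refine Subgroup.eq_of_le_of_card_ge ?_ ?_
  · rintro x ⟨y, rfl⟩
    obtain ⟨c, hc⟩ := hd
    refine ⟨y ^ c, ?_⟩
    simp only [powMonoidHom_apply]
    rw [hc, ← pow_mul, mul_comm]
  · rw [H, IsCyclic.card_powMonoidHom_range, IsCyclic.card_powMonoidHom_range, card_units hE]
    have h1 : Nat.gcd (q ^ u - 1) (q ^ j - 1) = q - 1 := by
      rw [Nat.pow_sub_one_gcd_pow_sub_one, hcop, pow_one]
    have h2 : Nat.gcd (q ^ u - 1) (q - 1) = q - 1 :=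
      Nat.gcd_eq_right (by simpa using Nat.sub_dvd_pow_sub_pow q 1 u)
    rw [h1, h2]

lemma card_fiber {q u j : ℕ} (hE : Nat.card E = q ^ u) (hu : u.Prime)
    (hj : 0 < j) (hju : j < u) (c : Eˣ) (hc : c ∈ H E q) :
    Nat.card {y : Eˣ // y ^ (q ^ j - 1) = c} = q - 1 := by
  rw [← range_pow hE hu hj hju] at hc
  obtain ⟨y0, hy0⟩ := hc
  simp only [powMonoidHom_apply] at hy0
  have hcop : Nat.gcd u j = 1 := by
    rw [← Nat.coprime_iff_gcd_eq_one]
    exact (Nat.Prime.coprime_iff_not_dvd hu).2 (Nat.not_dvd_of_pos_of_lt hj hju)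
  have hk : Nat.card (powMonoidHom (q ^ j - 1) : Eˣ →* Eˣ).ker = q - 1 := by
    rw [IsCyclic.card_powMonoidHom_ker, card_units hE, Nat.pow_sub_one_gcd_pow_sub_one, hcop,
      pow_one]
  rw [← hk]
  refine Nat.card_congr (Equiv.ofBijective
    (fun y => (⟨y.1 * y0⁻¹, ?_⟩ : (powMonoidHom (q ^ j - 1) : Eˣ →* Eˣ).ker)) ⟨?_, ?_⟩)
  · rw [MonoidHom.mem_ker, powMonoidHom_apply, mul_pow, y.2, inv_pow, hy0, mul_inv_cancel]
  · intro y y' h
    have h1 := congrArg Subtype.val h
    simp only at h1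
    exact Subtype.ext (mul_right_cancel h1)
  · rintro ⟨z, hz⟩
    rw [MonoidHom.mem_ker, powMonoidHom_apply] at hz
    refine ⟨⟨z * y0, ?_⟩, ?_⟩
    · rw [mul_pow, hz, one_mul, hy0]
    · apply Subtype.ext
      simp

end Units

/-! ### The construction -/

section Core
variable (F E : Type) [Field F] [Fintype F] [Field E] [Algebra F E] [Finite E]

/-- The `i`-th power of the Frobenius of `E` over `F`. -/
noncomputable def sig (i : ℕ) : E →ₐ[F] E := FiniteField.frobeniusAlgHom F E ^ i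

lemma sig_apply (i : ℕ) (x : E) : sig F E i x = x ^ (Fintype.card F ^ i) := by
  simp [sig, AlgHom.coe_pow, FiniteField.coe_frobeniusAlgHom, pow_iterate]

variable {F E}

/-- The equation `b x^(q^i) = b' x^(q^i')` has exactly `q` solutions. -/
lemma card_K_lt {u : ℕ} (hu : u.Prime) (hE : Nat.card E = Fintype.card F ^ u) {i i' : ℕ}
    (hii : i < i') (hi' : i' < u) (b b' : Eˣ) (hb : b ∈ H E (Fintype.card F))
    (hb' : b' ∈ H E (Fintype.card F)) :
    Nat.card {x : E // (b : E) * sig F E i x = b' * sig F E i' x} = Fintype.card F := by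
  set q := Fintype.card F with hq
  have hq2 : 2 ≤ q := Fintype.one_lt_card
  have hinj : Function.Injective (sig F E i) := (sig F E i).toRingHom.injective
  have hbij : Function.Bijective (sig F E i) := Finite.injective_iff_bijective.1 hinj
  -- reduction to `i = 0`
  have h1 : Nat.card {x : E // (b : E) * sig F E i x = b' * sig F E i' x}
      = Nat.card {y : E // (b : E) * y = b' * y ^ (q ^ (i' - i))} := by
    refine Nat.card_congr (Equiv.subtypeEquiv (Equiv.ofBijective _ hbij) ?_)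
    intro x
    simp only [Equiv.ofBijective_apply, sig_apply]
    rw [← pow_mul, ← pow_add, Nat.add_sub_cancel' hii.le]
  rw [h1]
  set j := i' - i with hj
  have hj0 : 0 < j := by omega
  have hju : j < u := by omega
  have hc : b * b'⁻¹ ∈ H E q := Subgroup.mul_mem _ hb (Subgroup.inv_mem _ hb')
  have h2 := card_fiber hE hu hj0 hju (b * b'⁻¹) hc
  have hqj : 1 ≤ q ^ j := Nat.one_le_pow _ _ (by omega)
  have h3 : Nat.card {y : E // (b : E) * y = b' * y ^ (q ^ j)}
      = Nat.card (Option {y : Eˣ // y ^ (q ^ j - 1) = b * b'⁻¹}) := by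
    symm
    refine Nat.card_congr (Equiv.ofBijective (fun o => match o with
      | none => ⟨0, ?_⟩
      | some y => ⟨(y.1 : E), ?_⟩) ⟨?_, ?_⟩)
    · rw [zero_pow (by omega), mul_zero, mul_zero]
    · obtain ⟨y, h4⟩ := y
      have h5 : b' * y ^ (q ^ j - 1) * y = b * y := by
        rw [h4, mul_comm b b'⁻¹, mul_inv_cancel_left]
      have h6 : (b : E) * y = b' * (y : E) ^ (q ^ j - 1) * y := by
        exact_mod_cast congrArg Units.val h5.symm
      rw [h6, mul_assoc, ← pow_succ, Nat.sub_add_cancel hqj]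
    · intro o o' h
      have h7 := congrArg Subtype.val h
      cases o with
      | none =>
        cases o' with
        | none => rfl
        | some y => exact absurd h7.symm y.1.ne_zero
      | some y =>
        cases o' with
        | none => exact absurd h7 y.1.ne_zero
        | some y' =>
          simp only at h7
          rw [Subtype.ext (Units.ext h7)]
    · rintro ⟨y, hy⟩
      by_cases h0 : y = 0
      · exact ⟨none, Subtype.ext h0.symm⟩
      · refine ⟨some ⟨Units.mk0 y h0, ?_⟩, Subtype.ext rfl⟩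
        have h8 : b' * (Units.mk0 y h0) ^ (q ^ j - 1) = b := by
          apply Units.ext
          push_cast
          simp only [Units.val_mk0]
          have h9 : (b' : E) * y ^ (q ^ j - 1) * y = b * y := by
            rw [mul_assoc, ← pow_succ, Nat.sub_add_cancel hqj, hy]
          exact mul_right_cancel₀ h0 h9
        rw [← h8, mul_comm b', mul_inv_cancel_right]
  rw [h3, Finite.card_option, h2]
  omega

lemma card_K {u : ℕ} (hu : u.Prime) (hE : Nat.card E = Fintype.card F ^ u) {i i' : ℕ}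
    (hii : i ≠ i') (hi : i < u) (hi' : i' < u) (b b' : Eˣ) (hb : b ∈ H E (Fintype.card F))
    (hb' : b' ∈ H E (Fintype.card F)) :
    Nat.card {x : E // (b : E) * sig F E i x = b' * sig F E i' x} = Fintype.card F := by
  rcases lt_or_gt_of_ne hii with h | h
  · exact card_K_lt hu hE h hi' b b' hb hb'
  · rw [← card_K_lt hu hE h hi b' b hb' hb]
    exact Nat.card_congr (Equiv.subtypeEquivRight fun x => eq_comm)

/-- The functional of `F^2` whose kernel is the `k`-th line. -/
def lam : Option F → (F × F →ₗ[F] F)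
  | none => LinearMap.fst F F F
  | some a => LinearMap.snd F F F - a • LinearMap.fst F F F

/-- A functional of `F^2` that does not vanish on the `k`-th line. -/
def mu : Option F → (F × F →ₗ[F] F)
  | none => LinearMap.snd F F F
  | some _ => LinearMap.fst F F F

lemma lam_mu_bij (k : Option F) :
    Function.Bijective (fun w : F × F => (lam k w, mu k w)) := by
  rw [← Finite.injective_iff_bijective]
  rintro ⟨s, t⟩ ⟨s', t'⟩ h
  cases k with
  | none =>
    simp only [lam, mu, LinearMap.fst_apply, LinearMap.snd_apply, Prod.mk.injEq] at h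
    rw [h.1, h.2]
  | some a =>
    simp only [lam, mu, LinearMap.sub_apply, LinearMap.smul_apply, LinearMap.fst_apply,
      LinearMap.snd_apply, Prod.mk.injEq, smul_eq_mul] at h
    obtain ⟨h1, h2⟩ := h
    subst h2
    rw [sub_left_inj] at h1
    rw [h1]

lemma lam_lam_bij {k k' : Option F} (hk : k ≠ k') :
    Function.Bijective (fun w : F × F => (lam k w, lam k' w)) := by
  rw [← Finite.injective_iff_bijective]
  rintro ⟨s, t⟩ ⟨s', t'⟩ h
  cases k with
  | none =>
    cases k' with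
    | none => exact absurd rfl hk
    | some a =>
      simp only [lam, LinearMap.sub_apply, LinearMap.smul_apply, LinearMap.fst_apply,
        LinearMap.snd_apply, Prod.mk.injEq, smul_eq_mul] at h
      obtain ⟨h1, h2⟩ := h
      subst h1
      rw [sub_left_inj] at h2
      rw [h2]
  | some a =>
    cases k' with
    | none =>
      simp only [lam, LinearMap.sub_apply, LinearMap.smul_apply, LinearMap.fst_apply,
        LinearMap.snd_apply, Prod.mk.injEq, smul_eq_mul] at h
      obtain ⟨h2, h1⟩ := h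
      subst h1
      rw [sub_left_inj] at h2
      rw [h2]
    | some c =>
      simp only [lam, LinearMap.sub_apply, LinearMap.smul_apply, LinearMap.fst_apply,
        LinearMap.snd_apply, Prod.mk.injEq, smul_eq_mul] at h
      obtain ⟨h1, h2⟩ := h
      have hac : c - a ≠ 0 := by
        intro h0; exact hk (by rw [sub_eq_zero.1 h0])
      have h3 : (c - a) * s = (c - a) * s' := by linear_combination h1 - h2
      have h4 := mul_left_cancel₀ hac h3
      subst h4
      rw [sub_left_inj] at h1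
      rw [h1]

/-- The members of the family. -/
noncomputable def sub (i : Option F → ℕ) (k : Option F) (b : Eˣ) (φ : E →ₗ[F] F) :
    Submodule F ((F × F) × (E × E)) where
  carrier := {v | v.2.2 = (b : E) * sig F E (i k) v.2.1 ∧ lam k v.1 = φ v.2.1}
  add_mem' := by
    rintro v w ⟨h1, h2⟩ ⟨h3, h4⟩
    refine ⟨?_, ?_⟩
    · simp only [Prod.snd_add, Prod.fst_add, map_add, mul_add, h1, h3]
    · simp only [Prod.snd_add, Prod.fst_add, map_add, h2, h4]
  zero_mem' := by
    refine ⟨?_, ?_⟩ <;> simp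
  smul_mem' := by
    rintro c v ⟨h1, h2⟩
    refine ⟨?_, ?_⟩
    · simp only [Prod.smul_snd, Prod.smul_fst, map_smul, h1, mul_smul_comm]
    · simp only [Prod.smul_snd, Prod.smul_fst, map_smul, h2]

lemma mem_sub (i : Option F → ℕ) (k : Option F) (b : Eˣ) (φ : E →ₗ[F] F)
    (v : (F × F) × (E × E)) :
    v ∈ sub i k b φ ↔ v.2.2 = (b : E) * sig F E (i k) v.2.1 ∧ lam k v.1 = φ v.2.1 := Iff.rfl

lemma finrank_of_card {W : Type} [AddCommGroup W] [Module F W] [Finite W] {m : ℕ}
    (h : Nat.card W = Fintype.card F ^ m) : finrank F W = m := by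
  have h1 := Module.natCard_eq_pow_finrank (K := F) (V := W)
  rw [h, Nat.card_eq_fintype_card] at h1
  exact (Nat.pow_right_injective Fintype.one_lt_card h1).symm

lemma finrank_sub {u : ℕ} (hE : Nat.card E = Fintype.card F ^ u) (i : Option F → ℕ)
    (k : Option F) (b : Eˣ) (φ : E →ₗ[F] F) : finrank F (sub i k b φ) = u + 1 := by
  apply finrank_of_card
  have h : Nat.card (sub i k b φ) = Nat.card (F × E) := by
    refine Nat.card_congr (Equiv.ofBijective (fun v => (mu k v.1.1, v.1.2.1)) ⟨?_, ?_⟩)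
    · rintro ⟨⟨w, x, y⟩, h1, h2⟩ ⟨⟨w', x', y'⟩, h3, h4⟩ h
      simp only [Prod.mk.injEq] at h h1 h2 h3 h4
      obtain ⟨h5, h6⟩ := h
      subst h6
      have h7 : w = w' := (lam_mu_bij k).1 (by simp only [h2, h4, h5])
      apply Subtype.ext
      simp only [h7, h1, h3]
    · rintro ⟨t, x⟩
      obtain ⟨w, hw⟩ := (lam_mu_bij k).2 (φ x, t)
      simp only [Prod.mk.injEq] at hw
      refine ⟨⟨(w, (x, (b : E) * sig F E (i k) x)), rfl, hw.1⟩, ?_⟩
      simp only [hw.2]
  rw [h, Nat.card_prod, hE, Nat.card_eq_fintype_card, pow_succ, mul_comm]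

/-- Same line, same graph: the intersection has dimension `u`. -/
lemma finrank_inf_same {u : ℕ} (hu : 0 < u) (hE : Nat.card E = Fintype.card F ^ u)
    (i : Option F → ℕ) (k : Option F) (b : Eˣ) {φ φ' : E →ₗ[F] F} (hφ : φ ≠ φ') :
    finrank F (sub i k b φ ⊓ sub i k b φ' : Submodule F ((F × F) × (E × E))) = u := by
  have hne : φ - φ' ≠ 0 := sub_ne_zero.2 hφ
  have hEu : finrank F E = u := finrank_of_card hE
  have hker : finrank F (LinearMap.ker (φ - φ')) = u - 1 := by
    have := Module.Dual.finrank_ker_add_one_of_ne_zero hne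
    omega
  apply finrank_of_card
  have h : Nat.card (sub i k b φ ⊓ sub i k b φ' : Submodule F ((F × F) × (E × E)))
      = Nat.card (F × LinearMap.ker (φ - φ')) := by
    refine Nat.card_congr (Equiv.ofBijective (fun v => (mu k v.1.1, ⟨v.1.2.1, ?_⟩)) ⟨?_, ?_⟩)
    · obtain ⟨⟨w, x, y⟩, ⟨h1, h2⟩, ⟨h3, h4⟩⟩ := v
      rw [LinearMap.mem_ker, LinearMap.sub_apply, sub_eq_zero]
      exact h2.symm.trans h4
    · rintro ⟨⟨w, x, y⟩, ⟨h1, h2⟩, h1'⟩ ⟨⟨w', x', y'⟩, ⟨h3, h4⟩, h3'⟩ h
      simp only [Prod.mk.injEq, Subtype.mk.injEq] at h h1 h2 h3 h4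
      obtain ⟨h5, h6⟩ := h
      subst h6
      have h7 : w = w' := (lam_mu_bij k).1 (by simp only [h2, h4, h5])
      apply Subtype.ext
      simp only [h7, h1, h3]
    · rintro ⟨t, ⟨x, hx⟩⟩
      obtain ⟨w, hw⟩ := (lam_mu_bij k).2 (φ x, t)
      simp only [Prod.mk.injEq] at hw
      rw [LinearMap.mem_ker, LinearMap.sub_apply, sub_eq_zero] at hx
      refine ⟨⟨(w, (x, (b : E) * sig F E (i k) x)), ⟨rfl, hw.1⟩, ⟨rfl, hw.1.trans hx⟩⟩, ?_⟩
      simp only [hw.2]
  rw [h, Nat.card_prod, Nat.card_eq_fintype_card,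
    Module.natCard_eq_pow_finrank (K := F) (V := LinearMap.ker (φ - φ')), hker,
    Nat.card_eq_fintype_card, ← pow_succ']
  congr 1
  omega

/-- Same line, different graphs: the intersection has dimension `1`. -/
lemma finrank_inf_line (i : Option F → ℕ) (k : Option F) {b b' : Eˣ} (hb : b ≠ b')
    (φ φ' : E →ₗ[F] F) :
    finrank F (sub i k b φ ⊓ sub i k b' φ' : Submodule F ((F × F) × (E × E))) = 1 := by
  apply finrank_of_card
  have hx0 : ∀ x : E, (b : E) * sig F E (i k) x = b' * sig F E (i k) x → x = 0 := by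
    intro x hx
    by_contra h0
    have h1 : sig F E (i k) x ≠ 0 := by
      intro h2; exact h0 ((sig F E (i k)).toRingHom.injective (by simpa using h2))
    exact hb (Units.ext (mul_right_cancel₀ h1 hx))
  have h : Nat.card (sub i k b φ ⊓ sub i k b' φ' : Submodule F ((F × F) × (E × E)))
      = Nat.card F := by
    refine Nat.card_congr (Equiv.ofBijective (fun v => mu k v.1.1) ⟨?_, ?_⟩)
    · rintro ⟨⟨w, x, y⟩, ⟨h1, h2⟩, ⟨h1', h2'⟩⟩ ⟨⟨w', x', y'⟩, ⟨h3, h4⟩, ⟨h3', h4'⟩⟩ h
      simp only at h h1 h2 h3 h4 h1' h3'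
      have h5 : x = 0 := hx0 x (h1.symm.trans h1')
      have h6 : x' = 0 := hx0 x' (h3.symm.trans h3')
      subst h5
      subst h6
      have h7 : w = w' := (lam_mu_bij k).1 (by simp only [h2, h4, h])
      apply Subtype.ext
      simp only [h7, h1, h3]
    · intro t
      obtain ⟨w, hw⟩ := (lam_mu_bij k).2 (0, t)
      simp only [Prod.mk.injEq] at hw
      refine ⟨⟨(w, (0, 0)), ⟨?_, ?_⟩, ⟨?_, ?_⟩⟩, ?_⟩
      · simp
      · simp [hw.1]
      · simp
      · simp [hw.1]
      · exact hw.2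
  rw [h, Nat.card_eq_fintype_card, pow_one]

/-- Different lines: the intersection has dimension `1`. -/
lemma finrank_inf_ne {u : ℕ} (hu : u.Prime) (hE : Nat.card E = Fintype.card F ^ u)
    (i : Option F → ℕ) (hi : ∀ k, i k < u) (hinj : Function.Injective i)
    {k k' : Option F} (hk : k ≠ k') (b b' : Eˣ) (hb : b ∈ H E (Fintype.card F))
    (hb' : b' ∈ H E (Fintype.card F)) (φ φ' : E →ₗ[F] F) :
    finrank F (sub i k b φ ⊓ sub i k' b' φ' : Submodule F ((F × F) × (E × E))) = 1 := by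
  apply finrank_of_card
  have h : Nat.card (sub i k b φ ⊓ sub i k' b' φ' : Submodule F ((F × F) × (E × E)))
      = Nat.card {x : E // (b : E) * sig F E (i k) x = b' * sig F E (i k') x} := by
    refine Nat.card_congr (Equiv.ofBijective (fun v => ⟨v.1.2.1, ?_⟩) ⟨?_, ?_⟩)
    · obtain ⟨⟨w, x, y⟩, ⟨h1, h2⟩, ⟨h3, h4⟩⟩ := v
      exact h1.symm.trans h3
    · rintro ⟨⟨w, x, y⟩, ⟨h1, h2⟩, ⟨h1', h2'⟩⟩ ⟨⟨w', x', y'⟩, ⟨h3, h4⟩, ⟨h3', h4'⟩⟩ h
      simp only [Subtype.mk.injEq] at h h1 h2 h3 h4 h2' h4'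
      subst h
      have h7 : w = w' := (lam_lam_bij hk).1 (by simp only [h2, h4, h2', h4'])
      apply Subtype.ext
      simp only [h7, h1, h3]
    · rintro ⟨x, hx⟩
      obtain ⟨w, hw⟩ := (lam_lam_bij hk).2 (φ x, φ' x)
      simp only [Prod.mk.injEq] at hw
      exact ⟨⟨(w, (x, (b : E) * sig F E (i k) x)), ⟨rfl, hw.1⟩, ⟨hx, hw.2⟩⟩, rfl⟩
  rw [h, card_K hu hE (fun h => hk (hinj h)) (hi k) (hi k') b b' hb hb', pow_one]

lemma odd_inf {u : ℕ} (hu : u.Prime) (hodd : Odd u) (hE : Nat.card E = Fintype.card F ^ u)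
    (i : Option F → ℕ) (hi : ∀ k, i k < u) (hinj : Function.Injective i)
    (x y : Option F × H E (Fintype.card F) × (E →ₗ[F] F)) (hxy : x ≠ y) :
    Odd (finrank F (sub i x.1 x.2.1.1 x.2.2 ⊓ sub i y.1 y.2.1.1 y.2.2 :
      Submodule F ((F × F) × (E × E)))) := by
  obtain ⟨k, ⟨b, hb⟩, φ⟩ := x
  obtain ⟨k', ⟨b', hb'⟩, φ'⟩ := y
  by_cases hk : k = k'
  · subst hk
    by_cases hbb : b = b'
    · subst hbb
      have hφ : φ ≠ φ' := by
        rintro rfl; exact hxy rfl
      simp only
      rw [finrank_inf_same hu.pos hE i k b hφ]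
      exact hodd
    · simp only
      rw [finrank_inf_line i k hbb φ φ']
      exact odd_one
  · simp only
    rw [finrank_inf_ne hu hE i hi hinj hk b b' hb hb' φ φ']
    exact odd_one

end Core

/-- `[2u+1]_q < (q+1) [u]_q q^u`. -/
lemma gauss_lt {q u : ℕ} (hq : 2 ≤ q) (hu : 2 ≤ u) :
    gauss q (2 * u + 1) < (q + 1) * (gauss q u * q ^ u) := by
  have h1 : (gauss q (2 * u + 1) : ℤ) * ((q : ℤ) - 1) = (q : ℤ) ^ (2 * u + 1) - 1 := by
    have := geom_sum_mul (q : ℤ) (2 * u + 1)
    simpa [gauss] using this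
  have h2 : (gauss q u : ℤ) * ((q : ℤ) - 1) = (q : ℤ) ^ u - 1 := by
    have := geom_sum_mul (q : ℤ) u
    simpa [gauss] using this
  have hq' : (2 : ℤ) ≤ q := by exact_mod_cast hq
  obtain ⟨t, rfl⟩ : ∃ t, u = t + 2 := ⟨u - 2, by omega⟩
  set Q : ℤ := (q : ℤ) ^ (t + 2) with hQ
  have hQ4 : (q : ℤ) ^ 2 ≤ Q := by
    rw [hQ]; exact pow_le_pow_right₀ (by linarith) (by omega)
  have h3 : (q : ℤ) ^ (2 * (t + 2) + 1) = Q * Q * q := by
    rw [hQ]; ring
  have h4 : (gauss q (2 * (t + 2) + 1) : ℤ) * ((q : ℤ) - 1)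
      < ((q : ℤ) + 1) * ((gauss q (t + 2) : ℤ) * Q) * ((q : ℤ) - 1) := by
    have h5 : ((q : ℤ) + 1) * ((gauss q (t + 2) : ℤ) * Q) * ((q : ℤ) - 1)
        = ((q : ℤ) + 1) * Q * (Q - 1) := by
      rw [← h2]; ring
    rw [h1, h3, h5]
    have h6 : 0 < Q := by positivity
    nlinarith [mul_le_mul_of_nonneg_left hQ4 h6.le, mul_pos h6 (by linarith : (0 : ℤ) < q),
      mul_nonneg h6.le (by linarith : (0 : ℤ) ≤ (q : ℤ) - 2),
      mul_nonneg (mul_nonneg h6.le (by linarith : (0 : ℤ) ≤ (q : ℤ) - 2))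
        (by linarith : (0 : ℤ) ≤ (q : ℤ))]
  have h7 := lt_of_mul_lt_mul_right h4 (by linarith)
  have h8 : ((gauss q (2 * (t + 2) + 1) : ℕ) : ℤ)
      < (((q + 1) * (gauss q (t + 2) * q ^ (t + 2)) : ℕ) : ℤ) := by
    push_cast
    exact h7
  exact_mod_cast h8

/-- The construction, in dimension `2u+2` for a prime `u ≥ q+1`. -/
lemma construction (F : Type) [Field F] [Finite F] (u : ℕ) (hu : u.Prime)
    (hqu : Nat.card F + 1 ≤ u) :
    ∃ 𝓕 : Set (Submodule F (Fin (2 * u + 2) → F)), IsReverseOddtown F (2 * u + 2) 𝓕 ∧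
      𝓕.ncard = (Nat.card F + 1) * (gauss (Nat.card F) u * Nat.card F ^ u) := by
  haveI := Fintype.ofFinite F
  rw [Nat.card_eq_fintype_card] at hqu ⊢
  have hq2 : 2 ≤ Fintype.card F := Fintype.one_lt_card
  obtain ⟨p, hp⟩ := CharP.exists F
  haveI : Fact p.Prime := ⟨CharP.char_is_prime F p⟩
  haveI : NeZero u := ⟨hu.ne_zero⟩
  let E := FiniteField.Extension F p u
  have hE : Nat.card E = Fintype.card F ^ u := by
    rw [FiniteField.natCard_extension, Nat.card_eq_fintype_card]
  have hfE : finrank F E = u := FiniteField.finrank_extension F p u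
  have hodd : Odd u := hu.odd_of_ne_two (by omega)
  have hcard : Fintype.card (Option F) ≤ Fintype.card (Fin u) := by
    rw [Fintype.card_option, Fintype.card_fin]; exact hqu
  obtain ⟨ι⟩ := Function.Embedding.nonempty_of_card_le hcard
  let i : Option F → ℕ := fun k => (ι k : ℕ)
  have hi : ∀ k, i k < u := fun k => (ι k).2
  have hinj : Function.Injective i := fun k k' h => ι.injective (Fin.ext h)
  have hfr : finrank F ((F × F) × (E × E)) = finrank F (Fin (2 * u + 2) → F) := by
    rw [Module.finrank_prod, Module.finrank_prod, Module.finrank_prod, Module.finrank_self, hfE,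
      Module.finrank_fin_fun]
    ring
  let e : ((F × F) × (E × E)) ≃ₗ[F] (Fin (2 * u + 2) → F) := LinearEquiv.ofFinrankEq _ _ hfr
  let g : Option F × H E (Fintype.card F) × (E →ₗ[F] F) → Submodule F ((F × F) × (E × E)) :=
    fun x => sub i x.1 x.2.1.1 x.2.2
  let f : Option F × H E (Fintype.card F) × (E →ₗ[F] F) → Submodule F (Fin (2 * u + 2) → F) :=
    fun x => (g x).map e.toLinearMap
  have heven : ∀ x, Even (finrank F (f x)) := by
    intro x
    have h1 : finrank F (f x) = finrank F (g x) := LinearEquiv.finrank_map_eq e (g x)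
    rw [h1, finrank_sub hE i]
    exact hodd.add_one
  have hoddi : ∀ x y, x ≠ y → Odd (finrank F (f x ⊓ f y : Submodule F (Fin (2 * u + 2) → F))) := by
    intro x y hxy
    have h1 : f x ⊓ f y = (g x ⊓ g y).map e.toLinearMap :=
      (Submodule.map_inf _ e.injective).symm
    have h2 : finrank F ((g x ⊓ g y).map e.toLinearMap : Submodule F (Fin (2 * u + 2) → F))
        = finrank F (g x ⊓ g y : Submodule F _) := LinearEquiv.finrank_map_eq e _
    rw [h1, h2]
    exact odd_inf hu hodd hE i hi hinj x y hxy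
  have hfinj : Function.Injective f := by
    intro x y hxy
    by_contra hne
    have h1 := hoddi x y hne
    rw [hxy, inf_idem] at h1
    exact (Nat.not_odd_iff_even.2 (heven y)) h1
  refine ⟨Set.range f, ⟨?_, ?_⟩, ?_⟩
  · rintro _ ⟨x, rfl⟩
    exact heven x
  · rintro _ ⟨x, rfl⟩ _ ⟨y, rfl⟩ hne
    exact hoddi x y (fun h => hne (by rw [h]))
  · have hdual : Nat.card (E →ₗ[F] F) = Fintype.card F ^ u := by
      rw [Module.natCard_eq_pow_finrank (K := F), Module.finrank_linearMap, hfE,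
        Module.finrank_self, mul_one, Nat.card_eq_fintype_card]
    rw [← Set.image_univ, Set.ncard_image_of_injective _ hfinj, Set.ncard_univ, Nat.card_prod,
      Nat.card_prod, hdual, card_H hq2 hE, Nat.card_eq_fintype_card, Fintype.card_option]

/-- For every finite field `F` with `q` elements and every prime `u ≥ q+1` there is a reverse
oddtown family of `(q+1) [u]_q q^u > [2u+1]_q` subspaces of `F^(2u+2)`.  In particular, for
every `q` there are arbitrarily large even `n` with a reverse oddtown family in `F^n` of more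
than `[n-1]_q` members. -/
theorem result (F : Type) [Field F] [Finite F] :
    (∀ u : ℕ, u.Prime → Nat.card F + 1 ≤ u →
      ∃ 𝓕 : Set (Submodule F (Fin (2 * u + 2) → F)), IsReverseOddtown F (2 * u + 2) 𝓕 ∧
        𝓕.ncard = (Nat.card F + 1) * (gauss (Nat.card F) u * Nat.card F ^ u) ∧
        gauss (Nat.card F) (2 * u + 1) < 𝓕.ncard) ∧
    (∀ N : ℕ, ∃ n : ℕ, N ≤ n ∧ Even n ∧
      ∃ 𝓕 : Set (Submodule F (Fin n → F)), IsReverseOddtown F n 𝓕 ∧
        gauss (Nat.card F) (n - 1) < 𝓕.ncard) := by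
  have h1 : ∀ u : ℕ, u.Prime → Nat.card F + 1 ≤ u →
      ∃ 𝓕 : Set (Submodule F (Fin (2 * u + 2) → F)), IsReverseOddtown F (2 * u + 2) 𝓕 ∧
        𝓕.ncard = (Nat.card F + 1) * (gauss (Nat.card F) u * Nat.card F ^ u) ∧
        gauss (Nat.card F) (2 * u + 1) < 𝓕.ncard := by
    intro u hu hqu
    obtain ⟨𝓕, h2, h3⟩ := construction F u hu hqu
    refine ⟨𝓕, h2, h3, ?_⟩
    rw [h3]
    exact gauss_lt Finite.one_lt_card hu.two_le
  refine ⟨h1, ?_⟩
  intro N
  obtain ⟨u, hu1, hu2⟩ := Nat.exists_infinite_primes (N + Nat.card F + 1)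
  obtain ⟨𝓕, h2, -, h4⟩ := h1 u hu2 (by omega)
  refine ⟨2 * u + 2, by omega, ⟨u + 1, by ring⟩, 𝓕, h2, ?_⟩
  have : 2 * u + 2 - 1 = 2 * u + 1 := by omega
  rw [this]
  exact h4

end Pool.Agent.Results.MP_489091_co.BoundFails
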